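import Pool.Agent.Helper12.TS.StB
import Pool.Agent.Helper51.AJ.Basic

set_option autoImplicit false

/-!
Project TS (MP_d63854_co), module LKB: the link around `v`.
-/

namespace Pool.Agent.Helper10.TS

open Pool.Agent.Helper12.TS
open Pool.Agent.Helper51.AJ (IsMinor Planar Apex ExMinor Con Tch)
open Pool.Agent.Helper12.NK (rst Kc add)

private lemma exists_ne_mem {V : Type} [Finite V] (X : Set V) (h : 2 ≤ X.ncard) (v : V) :
    ∃ x ∈ X, x ≠ v := by
  by_contra hcon
  push Not at hcon
  have hsub : X ⊆ {v} := fun x hx => hcon x hx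
  have := Set.ncard_le_ncard hsub (Set.toFinite _)
  rw [Set.ncard_singleton] at this
  omega

/-- Module LKB. -/
theorem hLKB (hCMP : StCMP) : StLKB := by
  intro V _ G S B s v hKc hS hB hs hv hdeg
  obtain ⟨h1, -, h3, -, h5, -, -⟩ := hCMP V G (insert v S)
  obtain ⟨-, -, h3', -, h5', -, -⟩ := hCMP V G S
  have hvS : v ∉ S := fun h => Set.disjoint_left.1 hB.1 hv h
  have hsB : s ∉ B := fun h => Set.disjoint_left.1 hB.1 h hs
  -- the component of `B \ {v}` at `t`
  have key : ∀ t ∈ S, t ≠ s → ∃ K ⊆ B \ {v}, Con G K ∧ Tch G {t} K ∧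
      (Tch G {s} K ∨ ∃ t' ∈ S, t' ≠ t ∧ t' ≠ s ∧ Tch G {t'} K) := by
    intro t ht hts
    obtain ⟨x, ⟨hxB, hadj⟩, hxv⟩ := exists_ne_mem _ (hdeg t ht hts) v
    have hxS : x ∉ S := fun h => Set.disjoint_left.1 hB.1 hxB h
    have hxI : x ∉ insert v S := by
      intro h
      rcases Set.mem_insert_iff.1 h with h | h
      · exact hxv h
      · exact hxS h
    obtain ⟨K, hK, hxK⟩ := h1 x hxI
    have hKS : Disjoint K S := hK.1.mono_right (Set.subset_insert v S)
    have hKB : K ⊆ B := h3' B K hB hK.2.1 hKS ⟨x, hxK, hxB⟩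
    have hKv : v ∉ K := fun h => Set.disjoint_left.1 hK.1 h (Set.mem_insert v S)
    refine ⟨K, ?_, hK.2.1, ⟨t, rfl, x, hxK, hadj⟩, ?_⟩
    · intro y hy
      exact ⟨hKB hy, fun hyv => hKv (by rw [Set.mem_singleton_iff] at hyv; rwa [hyv] at hy)⟩
    · obtain ⟨t', ht', hne, htch⟩ := h5' hKc hS v hvS K hK t
      by_cases hc : t' = s
      · subst hc
        exact Or.inl htch
      · exact Or.inr ⟨t', ht', hne, hc, htch⟩
  -- the other two elements
  have hc2 : (S \ {s}).ncard = 2 := by
    rw [Set.ncard_sdiff_singleton_of_mem hs]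
    omega
  obtain ⟨t, t', htt, hSs⟩ := Set.ncard_eq_two.1 hc2
  have ht : t ∈ S \ {s} := by rw [hSs]; simp
  have ht' : t' ∈ S \ {s} := by rw [hSs]; simp
  have hall : ∀ u ∈ S, u ≠ s → u = t ∨ u = t' := by
    intro u hu hus
    have : u ∈ S \ {s} := ⟨hu, hus⟩
    rw [hSs] at this
    simpa using this
  have hts : t ≠ s := ht.2
  have hts' : t' ≠ s := ht'.2
  obtain ⟨K, hKsub, hKcon, hKt, hKc'⟩ := key t ht.1 hts
  obtain ⟨K', hKsub', hKcon', hKt', hKc''⟩ := key t' ht'.1 hts'
  have hmono : B \ {v} ⊆ (B \ {v}) ∪ {s} := Set.subset_union_left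
  rcases hKc' with hKs | ⟨u, hu, hut, hus, hutch⟩
  · rcases hKc'' with hKs' | ⟨u, hu, hut, hus, hutch⟩
    · refine ⟨K ∪ {s} ∪ K', ?_, ?_, ?_⟩
      · intro y hy
        rcases hy with (hy | hy) | hy
        · exact Or.inl (hKsub hy)
        · exact Or.inr hy
        · exact Or.inl (hKsub' hy)
      · have hc1 : Con G (K ∪ {s}) :=
          Pool.Agent.Helper51.AJ.con_union hKcon (Pool.Agent.Helper51.AJ.con_singleton G s)
            (Pool.Agent.Helper51.AJ.tch_symm hKs)
        exact Pool.Agent.Helper51.AJ.con_union hc1 hKcon'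
          (Pool.Agent.Helper51.AJ.tch_mono hKs' (Set.subset_union_right) (le_refl _))
      · intro w hw hws
        rcases hall w hw hws with rfl | rfl
        · exact Pool.Agent.Helper51.AJ.tch_mono hKt (le_refl _)
            (fun y hy => Or.inl (Or.inl hy))
        · exact Pool.Agent.Helper51.AJ.tch_mono hKt' (le_refl _) (fun y hy => Or.inr hy)
    · have hu' : u = t := by
        rcases hall u hu hus with h | h
        · exact h
        · exact absurd h hut
      subst hu'
      refine ⟨K', fun y hy => hmono (hKsub' hy), hKcon', ?_⟩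
      intro w hw hws
      rcases hall w hw hws with rfl | rfl
      · exact hutch
      · exact hKt'
  · have hu' : u = t' := by
      rcases hall u hu hus with h | h
      · exact absurd h hut
      · exact h
    subst hu'
    refine ⟨K, fun y hy => hmono (hKsub hy), hKcon, ?_⟩
    intro w hw hws
    rcases hall w hw hws with rfl | rfl
    · exact hKt
    · exact hutch

end Pool.Agent.Helper10.TS
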