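import Pool.Agent.Helper12.TS.StB
import Pool.Agent.Helper86.NK.M_PTR

/-!
# Project TS, MODULE REF: refinements keep nonplanarity
-/

set_option autoImplicit false

namespace Pool.Agent.Helper10.TS

open Pool.Agent.Helper12.TS
open Pool.Agent.Helper51.AJ (IsMinor Planar Apex ExMinor Con Tch)
open Pool.Agent.Helper12.NK (rst Kc add)

theorem hREF : StQUO → StREF := by
  intro hQ V _ G D A T ρ ρ' hAT hD hρ hρ' href hpl
  have hnA : ∀ t ∈ T, t ∉ A := fun t ht hA => Set.disjoint_left.1 hAT hA ht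
  -- the ends of edges of the first graph
  have hend : ∀ a a', (rst (quo G Set.univ ρ) (Rr A ρ ∪ T) ⊔ D).Adj a a' → a ∈ Rr A ρ ∪ T := by
    intro a a' h
    rcases h with h | h
    · exact h.2.1
    · exact Or.inr (hD h).2.1
  have hfix : ∀ a ∈ Rr A ρ ∪ T, ρ a = a := by
    intro a ha
    rcases ha with ha | ha
    · exact ha.2
    · exact hρ.off a (hnA a ha)
  have hsub : ∀ a ∈ Rr A ρ ∪ T, ρ' '' {z | ρ z = a} ⊆ Rr A ρ' ∪ T := by
    rintro a ha _ ⟨z, hz, rfl⟩
    have hz' : ρ z = a := hz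
    by_cases hzA : z ∈ A
    · rcases hρ'.inn z hzA with h | h
      · exact Or.inl ⟨h, hρ'.idp z⟩
      · exact Or.inr h
    · have h1 : ρ z = z := hρ.off z hzA
      have h2 : z = a := by rw [← h1, hz']
      rw [hρ'.off z hzA, h2]
      rcases ha with ha | ha
      · exact absurd (h2 ▸ ha.1) hzA
      · exact Or.inr ha
  refine Pool.Agent.Helper86.NK.hPTR V V _ _ (fun a => ρ' '' {z | ρ z = a}) ?_ ?_ ?_ hpl
  · intro a a' h
    have ha := hend a a' h
    have h1 : Con G {z | ρ z = a} := by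
      have h2 := hρ.fib a
      rw [hfix a ha] at h2
      exact h2
    have h3 := (hQ V G Set.univ ρ').1 {z | ρ z = a} (Set.subset_univ _) h1
    refine SimpleGraph.Connected.mono ?_ h3
    intro x y hxy
    exact Or.inl ⟨hxy, hsub a ha x.2, hsub a ha y.2⟩
  · intro a a' b b' hab _ _
    rw [Set.disjoint_left]
    rintro _ ⟨z, hz, rfl⟩ ⟨w, hw, hzw⟩
    apply hab
    have h1 : ρ w = ρ z := href w z hzw
    have hz' : ρ z = a := hz
    have hw' : ρ w = b := hw
    rw [← hz', ← hw', h1]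
  · intro a a' h
    have ha := hend a a' h
    have ha' := hend a' a h.symm
    rcases h with h | h
    · obtain ⟨hne, x, -, y, -, hx, hy, hxy⟩ := h.1
      refine ⟨ρ' x, ⟨x, hx, rfl⟩, ρ' y, ⟨y, hy, rfl⟩, Or.inl ⟨⟨?_, x, trivial, y, trivial, rfl, rfl, hxy⟩,
        hsub a ha ⟨x, hx, rfl⟩, hsub a' ha' ⟨y, hy, rfl⟩⟩⟩
      intro h0
      apply hne
      rw [← hx, ← hy]
      exact href x y h0
    · have h1 := hD h
      exact ⟨a, ⟨a, hfix a ha, hρ'.off a (hnA a h1.2.1)⟩, a', ⟨a', hfix a' ha', hρ'.off a' (hnA a' h1.2.2)⟩,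
        Or.inr h⟩

end Pool.Agent.Helper10.TS
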