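import Pool.Agent.Helper12.TS.St

/-!
# Project TS, MODULE STG: every `s ∈ S` has a component with `Stg`
-/

set_option autoImplicit false

namespace Pool.Agent.Helper10.TS

open Pool.Agent.Helper12.TS
open Pool.Agent.Helper51.AJ (IsMinor Planar Apex ExMinor Con Tch)
open Pool.Agent.Helper12.NK (rst Kc add)

theorem hSTG : StCMP → StTWO → StSTG := by
  intro hC hT V _ G S hG hS s hs
  have h2 : (S \ {s}).ncard = 2 := by
    rw [Set.ncard_sdiff_singleton_of_mem hs, hS]
  obtain ⟨p, q, hpq, hSpq⟩ := Set.ncard_eq_two.1 h2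
  have hmem : ∀ x, x ∈ S ↔ x = s ∨ x = p ∨ x = q := by
    intro x
    have h3 : x ∈ S \ {s} ↔ x ∈ ({p, q} : Set V) := by rw [hSpq]
    simp only [Set.mem_sdiff, Set.mem_singleton_iff, Set.mem_insert_iff] at h3
    constructor
    · intro hx
      by_cases hxs : x = s
      · exact Or.inl hxs
      · exact Or.inr (h3.1 ⟨hx, hxs⟩)
    · rintro (h | h)
      · rw [h]; exact hs
      · exact (h3.2 h).1
  have hps : p ≠ s := by
    have : p ∈ S \ {s} := by rw [hSpq]; exact Set.mem_insert _ _
    exact this.2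
  have hqs : q ≠ s := by
    have : q ∈ S \ {s} := by rw [hSpq]; exact Set.mem_insert_of_mem _ rfl
    exact this.2
  have hpS : p ∈ S := (hmem p).2 (Or.inr (Or.inl rfl))
  have hqS : q ∈ S := (hmem q).2 (Or.inr (Or.inr rfl))
  obtain ⟨C, hCm, hN⟩ := hT V (rst G {s}ᶜ) p q {C | Cmp G S C} hpq
    (by
      intro C hCC
      refine ⟨fun h => Set.disjoint_left.1 hCC.1 h hpS, fun h => Set.disjoint_left.1 hCC.1 h hqS, ?_⟩
      intro x hx y hyp hyq hxy
      have hys : y ∉ S := by
        rw [hmem]
        rintro (h | h | h)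
        · exact hxy.2.2 h
        · exact hyp h
        · exact hyq h
      exact hCC.2.2 x hx y hys hxy.1)
    (by
      intro x y hxp hxq hxy
      have hxs : x ∉ S := by
        rw [hmem]
        rintro (h | h | h)
        · exact hxy.2.1 h
        · exact hxp h
        · exact hxq h
      exact (hC V G S).1 x hxs)
    (hG s)
  refine ⟨C, hCm, ?_⟩
  unfold Stg
  have he : rst G (C ∪ S \ {s}) = rst (rst G {s}ᶜ) (C ∪ {p, q}) := by
    rw [hSpq]
    have hsC : s ∉ C ∪ {p, q} := by
      rintro (h | h | h)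
      · exact Set.disjoint_left.1 hCm.1 h hs
      · exact hps h.symm
      · exact hqs h.symm
    ext a b
    constructor
    · intro h
      refine ⟨⟨h.1, ?_, ?_⟩, h.2.1, h.2.2⟩
      · intro h0
        rw [Set.mem_singleton_iff] at h0
        exact hsC (h0 ▸ h.2.1)
      · intro h0
        rw [Set.mem_singleton_iff] at h0
        exact hsC (h0 ▸ h.2.2)
    · intro h
      exact ⟨h.1.1, h.2.1, h.2.2⟩
  rw [he, hSpq]
  exact hN

end Pool.Agent.Helper10.TS
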